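import Mathlib
import Pool.Agent.U209.BX.Stm

/-!
Project BX, package PATH: concatenation of the stages to an infinite path.
-/

set_option autoImplicit false

namespace Pool.Agent.U97.BX.PATH

open Pool.Agent.U209.BX Polynomial Complex Finset Filter Topology MeasureTheory ComplexConjugate
  Metric

/-- the next position -/
def nxt (l : ℕ → ℕ) (s : ℕ × ℕ) : ℕ × ℕ := if s.2 + 1 < l s.1 then (s.1, s.2 + 1) else (s.1 + 1, 0)

/-- the positions -/
def pos (l : ℕ → ℕ) (j : ℕ) : ℕ × ℕ := (nxt l)^[j] (0, 0)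

theorem pos_succ (l : ℕ → ℕ) (j : ℕ) : pos l (j + 1) = nxt l (pos l j) :=
  Function.iterate_succ_apply' _ _ _

theorem pos_lt (l : ℕ → ℕ) (hl : ∀ n, 0 < l n) (j : ℕ) : (pos l j).2 < l (pos l j).1 := by
  induction j with
  | zero => exact hl 0
  | succ j ih =>
    rw [pos_succ]
    unfold nxt
    split_ifs with h
    · exact h
    · exact hl _

theorem pos_reach (l : ℕ → ℕ) (hl : ∀ n, 0 < l n) (n : ℕ) : ∃ j, pos l j = (n, 0) := by
  induction n with
  | zero => exact ⟨0, rfl⟩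
  | succ n ih =>
    obtain ⟨j, hj⟩ := ih
    have h1 : ∀ i, i < l n → pos l (j + i) = (n, i) := by
      intro i
      induction i with
      | zero => intro _; exact hj
      | succ i ih =>
        intro hi
        rw [← Nat.add_assoc, pos_succ, ih (by omega)]
        unfold nxt
        rw [if_pos hi]
    refine ⟨j + (l n - 1) + 1, ?_⟩
    have h2 := hl n
    rw [pos_succ, h1 (l n - 1) (by omega)]
    unfold nxt
    rw [if_neg (by simp only; omega)]

theorem concat (Z : ℕ → ℕ → ℂ) (l : ℕ → ℕ) (hl : ∀ n, 0 < l n)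
    (hZ : ∀ n, Z n (l n) = Z (n + 1) 0) (y : ℕ → ℂ)
    (hy : ∀ j, y j = Z (pos l j).1 (pos l j).2) :
    (∀ j, y (j + 1) = Z (pos l j).1 ((pos l j).2 + 1)) ∧
    (∀ J, chainSum y J = ∑ m ∈ range (pos l J).1, chainSum (Z m) (l m) +
      chainSum (Z (pos l J).1) (pos l J).2) ∧
    (∀ J, chainErr y J = ∑ m ∈ range (pos l J).1, chainErr (Z m) (l m) +
      chainErr (Z (pos l J).1) (pos l J).2) := by
  have h1 : ∀ j, y (j + 1) = Z (pos l j).1 ((pos l j).2 + 1) := by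
    intro j
    have hlt := pos_lt l hl j
    rw [hy, pos_succ]
    unfold nxt
    split_ifs with h
    · rfl
    · have : (pos l j).2 + 1 = l (pos l j).1 := by omega
      rw [this, hZ]
  refine ⟨h1, ?_, ?_⟩
  · intro J
    induction J with
    | zero => simp [pos, chainSum]
    | succ J ih =>
      have hlt := pos_lt l hl J
      have h2 : chainSum y (J + 1) = chainSum y J + conj (y J) / (y J) ^ 3 * (y (J + 1) - y J) :=
        Finset.sum_range_succ _ _
      have h3 : chainSum (Z (pos l J).1) ((pos l J).2 + 1) =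
          chainSum (Z (pos l J).1) (pos l J).2 + conj (y J) / (y J) ^ 3 * (y (J + 1) - y J) := by
        rw [h1 J, hy J]
        exact Finset.sum_range_succ _ _
      rw [h2, ih, add_assoc, ← h3, pos_succ]
      unfold nxt
      split_ifs with h
      · rfl
      · have h4 : (pos l J).2 + 1 = l (pos l J).1 := by omega
        rw [h4]
        simp only
        rw [Finset.sum_range_succ]
        simp [chainSum]
  · intro J
    induction J with
    | zero => simp [pos, chainErr]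
    | succ J ih =>
      have hlt := pos_lt l hl J
      have h2 : chainErr y (J + 1) = chainErr y J + ‖y (J + 1) - y J‖ ^ 2 / ‖y J‖ ^ 3 :=
        Finset.sum_range_succ _ _
      have h3 : chainErr (Z (pos l J).1) ((pos l J).2 + 1) =
          chainErr (Z (pos l J).1) (pos l J).2 + ‖y (J + 1) - y J‖ ^ 2 / ‖y J‖ ^ 3 := by
        rw [h1 J, hy J]
        exact Finset.sum_range_succ _ _
      rw [h2, ih, add_assoc, ← h3, pos_succ]
      unfold nxt
      split_ifs with h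
      · rfl
      · have h4 : (pos l J).2 + 1 = l (pos l J).1 := by omega
        rw [h4]
        simp only
        rw [Finset.sum_range_succ]
        simp [chainErr]

/-! ### the large step -/

theorem norm_ex (θ : ℝ) : ‖ex θ‖ = 1 := by
  unfold ex
  exact Complex.norm_exp_ofReal_mul_I θ

theorem ex_ne (θ : ℝ) : ex θ ≠ 0 := by
  intro h
  have := norm_ex θ
  rw [h, norm_zero] at this
  exact zero_ne_one this

theorem ex_cube (n : ℕ) : (ex (Real.pi * n / 3)) ^ 3 = (-1) ^ n := by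
  unfold ex
  rw [← Complex.exp_nat_mul]
  have h : ((3 : ℕ) : ℂ) * (((Real.pi * n / 3 : ℝ) : ℂ) * I) = (n : ℂ) * (Real.pi * I) := by
    push_cast
    ring
  rw [h, Complex.exp_nat_mul, Complex.exp_pi_mul_I]

theorem rr_ne (n : ℕ) : ((n : ℂ) + 5) ≠ 0 := by
  have : ((n : ℂ) + 5) = ((n + 5 : ℕ) : ℂ) := by push_cast; ring
  rw [this]
  exact_mod_cast (by omega : n + 5 ≠ 0)

theorem rr2_ne (n : ℕ) : ((n : ℂ) + 5) ^ 2 + 1 ≠ 0 := by
  have : ((n : ℂ) + 5) ^ 2 + 1 = (((n + 5) ^ 2 + 1 : ℕ) : ℂ) := by push_cast; ring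
  rw [this]
  exact_mod_cast (by positivity : (n + 5) ^ 2 + 1 ≠ 0)

theorem W_ne (n : ℕ) : W n ≠ 0 := mul_ne_zero (rr_ne n) (ex_ne _)

theorem norm_rr (n : ℕ) : ‖((n : ℂ) + 5)‖ = (n : ℝ) + 5 := by
  have : ((n : ℂ) + 5) = ((n + 5 : ℕ) : ℂ) := by push_cast; ring
  rw [this, Complex.norm_natCast]
  push_cast
  ring

theorem norm_W (n : ℕ) : ‖W n‖ = (n : ℝ) + 5 := by
  unfold W
  rw [norm_mul, norm_ex, mul_one, norm_rr]

theorem norm_W_inv (n : ℕ) : ‖(W n)⁻¹‖ = ((n : ℝ) + 5)⁻¹ := by rw [norm_inv, norm_W]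

theorem step_eq (n : ℕ) : (W' n)⁻¹ - (W n)⁻¹ = -((W n)⁻¹ / (((n : ℂ) + 5) ^ 2 + 1)) := by
  have h1 := rr_ne n
  have h2 := rr2_ne n
  have h3 := W_ne n
  have h4 : W' n = W n * (((n : ℂ) + 5) ^ 2 + 1) / ((n : ℂ) + 5) ^ 2 := by
    unfold W'
    field_simp
  rw [h4]
  field_simp
  ring

theorem norm_step (n : ℕ) : ‖(W' n)⁻¹ - (W n)⁻¹‖ = ‖(W n)⁻¹‖ / (((n : ℝ) + 5) ^ 2 + 1) := by
  rw [step_eq, norm_neg, norm_div]
  congr 1
  have : ((n : ℂ) + 5) ^ 2 + 1 = (((n + 5) ^ 2 + 1 : ℕ) : ℂ) := by push_cast; ring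
  rw [this, Complex.norm_natCast]
  push_cast
  ring

theorem term0 (n : ℕ) : conj ((W n)⁻¹) / ((W n)⁻¹) ^ 3 * ((W' n)⁻¹ - (W n)⁻¹) =
    -((-1) ^ n * (((n : ℂ) + 5) / (((n : ℂ) + 5) ^ 2 + 1))) := by
  have h1 := rr_ne n
  have h2 := rr2_ne n
  rw [step_eq, ← ex_cube]
  have hc : conj (W n) = ((n : ℂ) + 5) * (ex (Real.pi * n / 3))⁻¹ := by
    unfold W
    have h5 : ((n : ℂ) + 5) = ((n + 5 : ℕ) : ℂ) := by push_cast; ring
    rw [map_mul, Complex.inv_eq_conj (norm_ex _), h5, map_natCast]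
  rw [map_inv₀, hc]
  unfold W
  have h3 := ex_ne (Real.pi * n / 3)
  field_simp

theorem sum_bound (n : ℕ) : ∑ m ∈ range n, (1 / (((m : ℝ) + 1) * (m + 2)) + (1 / 2 : ℝ) ^ (m + 1)) ≤
    2 := by
  have h : ∀ n : ℕ, ∑ m ∈ range n, (1 / (((m : ℝ) + 1) * (m + 2)) + (1 / 2 : ℝ) ^ (m + 1)) =
      2 - 1 / ((n : ℝ) + 1) - (1 / 2 : ℝ) ^ n := by
    intro n
    induction n with
    | zero => norm_num
    | succ n ih =>
      rw [Finset.sum_range_succ, ih]
      push_cast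
      have h1 : (n : ℝ) + 1 ≠ 0 := by positivity
      have h2 : (n : ℝ) + 2 ≠ 0 := by positivity
      have h3 : (n : ℝ) + 1 + 1 ≠ 0 := by positivity
      rw [pow_succ]
      field_simp
      ring
  rw [h]
  have h1 : 0 ≤ 1 / ((n : ℝ) + 1) := by positivity
  have h2 : (0 : ℝ) ≤ (1 / 2 : ℝ) ^ n := by positivity
  linarith

theorem sum_alt (n : ℕ) : ‖∑ m ∈ range n, (-1 : ℂ) ^ m‖ ≤ 1 := by
  have h : ∀ n : ℕ, (∑ m ∈ range n, (-1 : ℂ) ^ m = 0 ∧ (-1 : ℂ) ^ n = 1) ∨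
      (∑ m ∈ range n, (-1 : ℂ) ^ m = 1 ∧ (-1 : ℂ) ^ n = -1) := by
    intro n
    induction n with
    | zero => left; simp
    | succ n ih =>
      rw [Finset.sum_range_succ, pow_succ]
      rcases ih with ⟨h1, h2⟩ | ⟨h1, h2⟩
      · right; rw [h1, h2]; simp
      · left; rw [h1, h2]; simp
  rcases h n with ⟨h1, -⟩ | ⟨h1, -⟩
  · rw [h1]; simp
  · rw [h1]; simp

theorem t_PATH (hST : S_STAGE) : S_PATH := by
  have hST' : ∀ n : ℕ, Link (W' n)⁻¹ (W (n + 1))⁻¹ 20 ((1 / 2 : ℝ) ^ (n + 1))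
      (-(-1) ^ n * (1 - 1 / ((n : ℂ) + 5))) := fun n => hST n _ (by positivity)
  choose nn Y hY0 hYn hYne hY16 hYsum hYmu hYerr using hST'
  let Z : ℕ → ℕ → ℂ := fun n i => if i = 0 then (W n)⁻¹ else Y n (i - 1)
  let l : ℕ → ℕ := fun n => nn n + 1
  have hl : ∀ n, 0 < l n := fun n => Nat.succ_pos _
  have hZ0 : ∀ n, Z n 0 = (W n)⁻¹ := fun n => if_pos rfl
  have hZs : ∀ n i, Z n (i + 1) = Y n i := by
    intro n i
    simp [Z]
  have hZl : ∀ n, Z n (l n) = Z (n + 1) 0 := by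
    intro n
    rw [hZ0, ← hYn n]
    exact hZs n (nn n)
  set y : ℕ → ℂ := fun j => Z (pos l j).1 (pos l j).2 with hy
  obtain ⟨hy1, hyS, hyE⟩ := concat Z l hl hZl y (fun j => rfl)
  -- one stage
  have hS1 : ∀ n i, chainSum (Z n) (i + 1) = chainSum (Y n) i +
      -((-1) ^ n * (((n : ℂ) + 5) / (((n : ℂ) + 5) ^ 2 + 1))) := by
    intro n i
    have h1 : chainSum (Z n) (i + 1) = ∑ j ∈ range i,
        conj (Z n (j + 1)) / (Z n (j + 1)) ^ 3 * (Z n (j + 1 + 1) - Z n (j + 1)) +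
        conj (Z n 0) / (Z n 0) ^ 3 * (Z n (0 + 1) - Z n 0) := Finset.sum_range_succ' _ _
    rw [h1, hZs, hZ0, hY0, term0]
    rfl
  have hE1 : ∀ n i, chainErr (Z n) (i + 1) = chainErr (Y n) i +
      ‖(W' n)⁻¹ - (W n)⁻¹‖ ^ 2 / ‖(W n)⁻¹‖ ^ 3 := by
    intro n i
    have h1 : chainErr (Z n) (i + 1) = ∑ j ∈ range i,
        ‖Z n (j + 1 + 1) - Z n (j + 1)‖ ^ 2 / ‖Z n (j + 1)‖ ^ 3 +
        ‖Z n (0 + 1) - Z n 0‖ ^ 2 / ‖Z n 0‖ ^ 3 := Finset.sum_range_succ' _ _
    rw [h1, hZs, hZ0, hY0]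
    rfl
  have hnorm0 : ∀ n : ℕ, ‖-((-1) ^ n * (((n : ℂ) + 5) / (((n : ℂ) + 5) ^ 2 + 1)))‖ ≤ 1 := by
    intro n
    have h2 : ((n : ℂ) + 5) ^ 2 + 1 = (((n + 5) ^ 2 + 1 : ℕ) : ℂ) := by push_cast; ring
    rw [norm_neg, norm_mul, norm_pow, norm_neg, norm_one, one_pow, one_mul, norm_div, norm_rr, h2,
      Complex.norm_natCast]
    push_cast
    rw [div_le_one (by positivity)]
    nlinarith [(Nat.cast_nonneg n : (0 : ℝ) ≤ n)]
  have hbS : ∀ n i, i ≤ l n → ‖chainSum (Z n) i‖ ≤ 21 := by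
    intro n i hi
    rcases i with _ | i
    · simp [chainSum]
    · rw [hS1]
      refine (norm_add_le _ _).trans ?_
      have h1 := hYsum n i (by simp only [l] at hi; omega)
      have h2 := hnorm0 n
      linarith
  have hstage : ∀ n : ℕ, ‖chainSum (Z n) (l n) + (-1) ^ n‖ ≤
      1 / (((n : ℝ) + 1) * (n + 2)) + (1 / 2 : ℝ) ^ (n + 1) := by
    intro n
    have h1 := rr_ne n
    have h2 := rr2_ne n
    have h3 : chainSum (Z n) (l n) + (-1) ^ n =
        (-1) ^ n * (1 / (((n : ℂ) + 5) * (((n : ℂ) + 5) ^ 2 + 1))) +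
        (chainSum (Y n) (nn n) - (-(-1) ^ n * (1 - 1 / ((n : ℂ) + 5)))) := by
      have h4 : chainSum (Z n) (l n) = chainSum (Z n) (nn n + 1) := rfl
      rw [h4, hS1]
      field_simp
      ring
    rw [h3]
    refine (norm_add_le _ _).trans ?_
    have h5 := hYmu n
    have h6 : ‖(-1) ^ n * (1 / (((n : ℂ) + 5) * (((n : ℂ) + 5) ^ 2 + 1)))‖ ≤
        1 / (((n : ℝ) + 1) * (n + 2)) := by
      have h7 : (((n : ℂ) + 5) * (((n : ℂ) + 5) ^ 2 + 1)) =
          (((n + 5) * ((n + 5) ^ 2 + 1) : ℕ) : ℂ) := by push_cast; ring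
      rw [norm_mul, norm_pow, norm_neg, norm_one, one_pow, one_mul, norm_div, norm_one, h7,
        Complex.norm_natCast]
      apply one_div_le_one_div_of_le (by positivity)
      push_cast
      have hn : (0 : ℝ) ≤ n := Nat.cast_nonneg n
      nlinarith [pow_nonneg hn 2, pow_nonneg hn 3]
    linarith
  have herr : ∀ n : ℕ, chainErr (Z n) (l n) ≤
      1 / (((n : ℝ) + 1) * (n + 2)) + (1 / 2 : ℝ) ^ (n + 1) := by
    intro n
    have h4 : chainErr (Z n) (l n) = chainErr (Z n) (nn n + 1) := rfl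
    rw [h4, hE1, norm_step, norm_W_inv]
    have h5 := hYerr n
    have h6 : (((n : ℝ) + 5)⁻¹ / (((n : ℝ) + 5) ^ 2 + 1)) ^ 2 / (((n : ℝ) + 5)⁻¹) ^ 3 ≤
        1 / (((n : ℝ) + 1) * (n + 2)) := by
      have hn : (0 : ℝ) ≤ n := Nat.cast_nonneg n
      have h7 : (((n : ℝ) + 5)⁻¹ / (((n : ℝ) + 5) ^ 2 + 1)) ^ 2 / (((n : ℝ) + 5)⁻¹) ^ 3 =
          ((n : ℝ) + 5) / (((n : ℝ) + 5) ^ 2 + 1) ^ 2 := by
        field_simp
      rw [h7, div_le_div_iff₀ (by positivity) (by positivity)]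
      nlinarith [pow_nonneg hn 2, pow_nonneg hn 3, pow_nonneg hn 4]
    linarith
  have hEmono : ∀ n i, i ≤ l n → chainErr (Z n) i ≤ chainErr (Z n) (l n) := by
    intro n i hi
    unfold chainErr
    apply Finset.sum_le_sum_of_subset_of_nonneg
    · intro j hj
      rw [Finset.mem_range] at hj ⊢
      omega
    · intro j _ _
      positivity
  refine ⟨y, 30, ?_, ?_, ?_, ?_, ?_⟩
  · intro j
    have hlt := pos_lt l hl j
    change Z (pos l j).1 (pos l j).2 ≠ 0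
    generalize (pos l j).1 = n at *
    generalize (pos l j).2 = i at *
    rcases i with _ | i
    · rw [hZ0]; exact inv_ne_zero (W_ne n)
    · rw [hZs]
      exact hYne n i (by simp only [l] at hlt; omega)
  · intro j
    have hlt := pos_lt l hl j
    rw [hy1]
    change 16 * ‖Z (pos l j).1 ((pos l j).2 + 1) - Z (pos l j).1 (pos l j).2‖ ≤
      ‖Z (pos l j).1 (pos l j).2‖
    generalize (pos l j).1 = n at *
    generalize (pos l j).2 = i at *
    rcases i with _ | i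
    · rw [hZs, hZ0, hY0, norm_step]
      have h1 : 0 ≤ ‖(W n)⁻¹‖ := norm_nonneg _
      have hn : (0 : ℝ) ≤ n := Nat.cast_nonneg n
      rw [← mul_div_assoc, div_le_iff₀ (by positivity)]
      nlinarith [mul_nonneg h1 hn, mul_nonneg h1 (pow_nonneg hn 2)]
    · rw [hZs, hZs]
      exact hY16 n i (by simp only [l] at hlt; omega)
  · intro J
    rw [hyS]
    have hlt := pos_lt l hl J
    generalize (pos l J).1 = n at *
    generalize (pos l J).2 = i at *
    have h1 : ∑ m ∈ range n, chainSum (Z m) (l m) =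
        ∑ m ∈ range n, (chainSum (Z m) (l m) + (-1) ^ m) - ∑ m ∈ range n, (-1 : ℂ) ^ m := by
      rw [Finset.sum_add_distrib]; ring
    have h2 : ‖∑ m ∈ range n, (chainSum (Z m) (l m) + (-1) ^ m)‖ ≤ 2 :=
      (norm_sum_le _ _).trans ((Finset.sum_le_sum fun m _ => hstage m).trans (sum_bound n))
    have h3 := sum_alt n
    have h4 := hbS n i hlt.le
    rw [h1]
    have h5 := norm_add_le (∑ m ∈ range n, (chainSum (Z m) (l m) + (-1) ^ m) -
      ∑ m ∈ range n, (-1 : ℂ) ^ m) (chainSum (Z n) i)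
    have h6 := norm_sub_le (∑ m ∈ range n, (chainSum (Z m) (l m) + (-1) ^ m))
      (∑ m ∈ range n, (-1 : ℂ) ^ m)
    linarith
  · intro J
    rw [hyE]
    have hlt := pos_lt l hl J
    generalize (pos l J).1 = n at *
    generalize (pos l J).2 = i at *
    have h1 := (Finset.sum_le_sum fun m (_ : m ∈ range n) => herr m).trans (sum_bound n)
    have h2 := hEmono n i hlt.le
    have h3 := herr n
    have h4 : 1 / (((n : ℝ) + 1) * (n + 2)) ≤ 1 := by
      rw [div_le_one (by positivity)]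
      have hn : (0 : ℝ) ≤ n := Nat.cast_nonneg n
      nlinarith
    have h5 : (1 / 2 : ℝ) ^ (n + 1) ≤ 1 := pow_le_one₀ (by norm_num) (by norm_num)
    linarith
  · intro A
    obtain ⟨n, hn⟩ := exists_nat_ge (2 * A)
    obtain ⟨j, hj⟩ := pos_reach l hl n
    refine ⟨j, ?_⟩
    have h1 := hy1 j
    have h2 : y j = (W n)⁻¹ := by
      change Z (pos l j).1 (pos l j).2 = _
      rw [hj]
      exact hZ0 n
    rw [hj] at h1
    simp only at h1
    rw [hZs, hY0] at h1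
    rw [h1, h2, norm_step, norm_W_inv]
    have h0 : (0 : ℝ) ≤ n := Nat.cast_nonneg n
    have h7 : (((n : ℝ) + 5)⁻¹ / (((n : ℝ) + 5) ^ 2 + 1)) / (((n : ℝ) + 5)⁻¹) ^ 4 =
        ((n : ℝ) + 5) ^ 3 / (((n : ℝ) + 5) ^ 2 + 1) := by
      field_simp
    rw [h7, le_div_iff₀ (by positivity)]
    have h8 : A ≤ (n : ℝ) / 2 := by linarith
    have h9 : A * (((n : ℝ) + 5) ^ 2 + 1) ≤ (n : ℝ) / 2 * (((n : ℝ) + 5) ^ 2 + 1) :=
      mul_le_mul_of_nonneg_right h8 (by positivity)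
    nlinarith [pow_nonneg h0 2, pow_nonneg h0 3]

end Pool.Agent.U97.BX.PATH
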